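import Pool.Agent.H60.RF.Stmts

/-! # Row AR7 of the board `rf`: the programme for `m = 7` -/

set_option autoImplicit false

namespace Pool.RF

theorem ar7 : AR7Stmt := by
  intro L S W x M Ls Ee hL hW hx hM hM0 hLM hLs hEe hmain
  have hx0 := hx 0
  have hx2 := hx 2
  -- (i)
  have A : ∀ (a b : Fin 7) (Q Qa Qb P : Finset (Fin 7)), Qa.card = 3 → Qb.card = 3 →
      Disjoint {a} Qa → Disjoint {b} Qb → {a} ∪ Qa = Q → {b} ∪ Qb = Q → {a} ∪ {b} = P →
      ({a} : Finset (Fin 7)) ∩ {b} = ∅ →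
      4 * L + Ls P + 2 * Ee Q ≤ 2 * S + 5 * W := by
    intro a b Q Qa Qb P h1 h2 h3 h4 h5 h6 h7 h8
    have e1 := hmain 0 {a} Qa (by simp) h1 h3
    have e2 := hmain 0 {b} Qb (by simp) h2 h4
    have e3 := hM 0 {a} {b}
    have e4 := hLM 0 P
    have e5 := hLs {a}
    have e6 := hLs {b}
    have e7 := hM0 0
    rw [h5] at e1
    rw [h6] at e2
    rw [h7, h8] at e3
    simp only [Finset.card_singleton] at e5 e6
    push_cast at e1 e2 e4 e5 e6
    simp only [Fin.val_zero, Nat.cast_zero] at e1 e2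
    linarith [hx0.1]
  have a0 := A 0 1 {0, 1, 2, 3} {1, 2, 3} {0, 2, 3} {0, 1} (by decide) (by decide) (by decide)
    (by decide) (by decide) (by decide) (by decide) (by decide)
  have a1 := A 1 2 {1, 2, 3, 4} {2, 3, 4} {1, 3, 4} {1, 2} (by decide) (by decide) (by decide)
    (by decide) (by decide) (by decide) (by decide) (by decide)
  have a2 := A 2 3 {2, 3, 4, 0} {3, 4, 0} {2, 4, 0} {2, 3} (by decide) (by decide) (by decide)
    (by decide) (by decide) (by decide) (by decide) (by decide)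
  have a3 := A 3 4 {3, 4, 0, 1} {4, 0, 1} {3, 0, 1} {3, 4} (by decide) (by decide) (by decide)
    (by decide) (by decide) (by decide) (by decide) (by decide)
  have a4 := A 4 0 {4, 0, 1, 2} {0, 1, 2} {4, 1, 2} {4, 0} (by decide) (by decide) (by decide)
    (by decide) (by decide) (by decide) (by decide) (by decide)
  -- (ii)
  have B : ∀ α β : Finset (Fin 7), α.card = 2 → β.card = 3 → Disjoint α β →
      α ∪ β = {0, 1, 2, 3, 4} →
      5 * L + M 1 α - Ls α + 4 * x 1 + Ee {0, 1, 2, 3, 4} ≤ S + W := by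
    intro α β h1 h2 h3 h4
    have e1 := hmain 1 α β (by rw [h1]; rfl) h2 h3
    rw [h4] at e1
    push_cast at e1
    simp only [Fin.val_one, Nat.cast_one] at e1
    linarith
  have C : ∀ P P' R T s : Finset (Fin 7), P ∪ P' = T → P ∩ P' = s → s ∪ R = T → s ∩ R = ∅ →
      2 * (Ls T - 7 * x 1 - W) ≤ M 1 P + M 1 P' + M 1 R := by
    intro P P' R T s h1 h2 h3 h4
    have e1 := hM 1 P P'
    have e2 := hM 1 s R
    have e3 := hLM 1 T
    have e4 := hM0 1
    rw [h1, h2] at e1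
    rw [h3, h4, e4] at e2
    push_cast at e3
    linarith
  have D : ∀ P P' Q : Finset (Fin 7), P ∪ P' = Q → P ∩ P' = ∅ →
      Ls Q - 7 * x 1 - W ≤ M 1 P + M 1 P' := by
    intro P P' Q h1 h2
    have e1 := hM 1 P P'
    have e3 := hLM 1 Q
    have e4 := hM0 1
    rw [h1, h2, e4] at e1
    push_cast at e3
    linarith
  have bp0 := B {0, 1} {2, 3, 4} (by decide) (by decide) (by decide) (by decide)
  have bp1 := B {1, 2} {3, 4, 0} (by decide) (by decide) (by decide) (by decide)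
  have bp2 := B {2, 3} {4, 0, 1} (by decide) (by decide) (by decide) (by decide)
  have bp3 := B {3, 4} {0, 1, 2} (by decide) (by decide) (by decide) (by decide)
  have bp4 := B {4, 0} {1, 2, 3} (by decide) (by decide) (by decide) (by decide)
  have br0 := B {0, 2} {1, 3, 4} (by decide) (by decide) (by decide) (by decide)
  have br1 := B {1, 3} {2, 4, 0} (by decide) (by decide) (by decide) (by decide)
  have br2 := B {2, 4} {3, 0, 1} (by decide) (by decide) (by decide) (by decide)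
  have br3 := B {3, 0} {4, 1, 2} (by decide) (by decide) (by decide) (by decide)
  have br4 := B {4, 1} {0, 2, 3} (by decide) (by decide) (by decide) (by decide)
  have c0 := C {0, 1} {1, 2} {0, 2} {0, 1, 2} {1} (by decide) (by decide) (by decide) (by decide)
  have c1 := C {1, 2} {2, 3} {1, 3} {1, 2, 3} {2} (by decide) (by decide) (by decide) (by decide)
  have c2 := C {2, 3} {3, 4} {2, 4} {2, 3, 4} {3} (by decide) (by decide) (by decide) (by decide)
  have c3 := C {3, 4} {4, 0} {3, 0} {3, 4, 0} {4} (by decide) (by decide) (by decide) (by decide)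
  have c4 := C {4, 0} {0, 1} {4, 1} {4, 0, 1} {0} (by decide) (by decide) (by decide) (by decide)
  have d0 := D {0, 1} {2, 3} {0, 1, 2, 3} (by decide) (by decide)
  have d1 := D {1, 2} {3, 4} {1, 2, 3, 4} (by decide) (by decide)
  have d2 := D {2, 3} {4, 0} {2, 3, 4, 0} (by decide) (by decide)
  have d3 := D {3, 4} {0, 1} {3, 4, 0, 1} (by decide) (by decide)
  have d4 := D {4, 0} {1, 2} {4, 0, 1, 2} (by decide) (by decide)
  -- (iii)
  have E : ∀ α β : Finset (Fin 7), α.card = 3 → β.card = 3 → Disjoint α β →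
      6 * L + M 2 α - Ls α + 4 * x 2 ≤ S + W := by
    intro α β h1 h2 h3
    have e1 := hmain 2 α β (by rw [h1]; rfl) h2 h3
    have e2 := (hEe (α ∪ β)).1
    push_cast at e1
    simp only [Fin.val_two, Nat.cast_ofNat] at e1
    linarith
  have e0 := E {0, 1, 2} {3, 4, 5} (by decide) (by decide) (by decide)
  have e1 := E {1, 2, 3} {4, 0, 5} (by decide) (by decide) (by decide)
  have e2 := E {2, 3, 4} {0, 1, 5} (by decide) (by decide) (by decide)
  have e3 := E {3, 4, 0} {1, 2, 5} (by decide) (by decide) (by decide)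
  have e4 := E {4, 0, 1} {2, 3, 5} (by decide) (by decide) (by decide)
  have SM : ∀ (α β u v : Finset (Fin 7)), α ∪ β = u → α ∩ β = v →
      M 2 u + M 2 v ≤ M 2 α + M 2 β := by
    intro α β u v h1 h2
    have := hM 2 α β
    rwa [h1, h2] at this
  have f1 := SM {0, 1, 2} {3, 4, 0} {0, 1, 2, 3, 4} {0} (by decide) (by decide)
  have f2 := SM {1, 2, 3} {4, 0, 1} {0, 1, 2, 3, 4} {1} (by decide) (by decide)
  have f3 := SM {0} {1} {0, 1} ∅ (by decide) (by decide)
  have f4 := SM {2, 3, 4} {0, 1} {0, 1, 2, 3, 4} ∅ (by decide) (by decide)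
  have f5 := hM0 2
  have f6 := hLM 2 {0, 1, 2, 3, 4}
  push_cast at f6
  have G3 : 58 * L + 6 * Ls {0, 1, 2, 3, 4} - 2 * (Ls {0, 1, 2} + Ls {1, 2, 3} + Ls {2, 3, 4} +
      Ls {3, 4, 0} + Ls {4, 0, 1}) ≤ 10 * S + 16 * W := by
    linarith [hx2.2]
  have G2 : 175 * L + 2 * (Ls {0, 1, 2} + Ls {1, 2, 3} + Ls {2, 3, 4} + Ls {3, 4, 0} +
      Ls {4, 0, 1}) + 2 * (Ls {0, 1, 2, 3} + Ls {1, 2, 3, 4} + Ls {2, 3, 4, 0} + Ls {3, 4, 0, 1} +
      Ls {4, 0, 1, 2}) - 6 * (Ls {0, 1} + Ls {1, 2} + Ls {2, 3} + Ls {3, 4} + Ls {4, 0}) -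
      (Ls {0, 2} + Ls {1, 3} + Ls {2, 4} + Ls {3, 0} + Ls {4, 1}) + 35 * Ee {0, 1, 2, 3, 4} ≤
      35 * S + 55 * W := by
    linarith
  have G1 : 20 * L + (Ls {0, 1} + Ls {1, 2} + Ls {2, 3} + Ls {3, 4} + Ls {4, 0}) +
      2 * (Ee {0, 1, 2, 3} + Ee {1, 2, 3, 4} + Ee {2, 3, 4, 0} + Ee {3, 4, 0, 1} +
      Ee {4, 0, 1, 2}) ≤ 10 * S + 25 * W := by
    linarith
  have P2 : ∀ α : Finset (Fin 7), α.card = 2 → Ls α ≤ 4 * L + W := by
    intro α h
    have := hLs α
    rw [h] at this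
    push_cast at this
    linarith
  have Q7 : ∀ α : Finset (Fin 7), 7 * L - W ≤ Ls α + Ee α := by
    intro α
    have := (hEe α).2
    push_cast at this
    linarith
  have p0 := P2 {0, 1} (by decide)
  have p1 := P2 {1, 2} (by decide)
  have p2 := P2 {2, 3} (by decide)
  have p3 := P2 {3, 4} (by decide)
  have p4 := P2 {4, 0} (by decide)
  have r0 := P2 {0, 2} (by decide)
  have r1 := P2 {1, 3} (by decide)
  have r2 := P2 {2, 4} (by decide)
  have r3 := P2 {3, 0} (by decide)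
  have r4 := P2 {4, 1} (by decide)
  have q0 := Q7 {0, 1, 2, 3}
  have q1 := Q7 {1, 2, 3, 4}
  have q2 := Q7 {2, 3, 4, 0}
  have q3 := Q7 {3, 4, 0, 1}
  have q4 := Q7 {4, 0, 1, 2}
  have qV := Q7 {0, 1, 2, 3, 4}
  have hV := (hEe {0, 1, 2, 3, 4}).1
  have G : 245 * L ≤ 55 * S + 142 * W := by linarith
  linarith

end Pool.RF
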