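import Pool.Agent.H60.RF.Stmts

/-! # Row RMC of the board `rf`: classes -/

set_option autoImplicit false

namespace Pool.RF

theorem rmc (h : RMTStmt) : RMCStmt := by
  intro R N
  obtain ⟨K1, h1⟩ := h 1 R (N + 1)
  obtain ⟨K2, h2⟩ := h 2 K1 (N + 1)
  obtain ⟨K3, h3⟩ := h 3 K2 (N + 1)
  obtain ⟨K, hK⟩ : ∃ K, K = max K3 R := ⟨_, rfl⟩
  refine ⟨K, hK ▸ le_max_right _ _, fun {Ω} f => ?_⟩
  have key : ∀ ω : Ω, ∃ A : (Fin R → Fin K) × (Fin 3 → Fin (N + 1)), Function.Injective A.1 ∧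
      ∀ (i : Fin 3) (α : Finset (Fin R)), α.card = (i : ℕ) + 1 → ∀ n ≤ N,
        f (α.image A.1) (A.2 i : ℕ) ω ≤ f (α.image A.1) n ω := by
    intro ω
    have hex : ∀ v : Finset ℕ, ∃ n : Fin (N + 1), ∀ n' ≤ N,
        f (Finset.univ.filter fun i : Fin K => (i : ℕ) ∈ v) (n : ℕ) ω ≤
          f (Finset.univ.filter fun i : Fin K => (i : ℕ) ∈ v) n' ω := by
      intro v
      obtain ⟨n, -, hn⟩ := Finset.exists_min_image (Finset.univ : Finset (Fin (N + 1)))
        (fun n => f (Finset.univ.filter fun i : Fin K => (i : ℕ) ∈ v) (n : ℕ) ω)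
        ⟨0, Finset.mem_univ _⟩
      exact ⟨n, fun n' hn' => hn ⟨n', by omega⟩ (Finset.mem_univ _)⟩
    choose col hcol using hex
    obtain ⟨Y3, hY3, hc3, n3, hn3⟩ := h3 (Finset.range K)
      (by rw [Finset.card_range, hK]; exact le_max_left _ _) col
    obtain ⟨Y2, hY2, hc2, n2, hn2⟩ := h2 Y3 hc3.ge col
    obtain ⟨Y1, hY1, hc1, n1, hn1⟩ := h1 Y2 hc2.ge col
    have hlt : ∀ l, Y1.orderEmbOfFin hc1 l < K := fun l =>
      Finset.mem_range.1 (hY3 (hY2 (hY1 (Finset.orderEmbOfFin_mem Y1 hc1 l))))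
    let τ : Fin R → Fin K := fun l => ⟨Y1.orderEmbOfFin hc1 l, hlt l⟩
    have hτ : Function.Injective τ := fun a b hab =>
      (Y1.orderEmbOfFin hc1).injective (congrArg Fin.val hab)
    refine ⟨(τ, ![n1, n2, n3]), hτ, fun i α hα n hn => ?_⟩
    obtain ⟨v, hv⟩ : ∃ v, v = (α.image τ).image Fin.val := ⟨_, rfl⟩
    have hvc : v.card = α.card := by
      rw [hv, Finset.card_image_of_injective _ Fin.val_injective,
        Finset.card_image_of_injective _ hτ]
    have hvY : v ⊆ Y1 := by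
      intro z hz
      rw [hv] at hz
      obtain ⟨w, hw, rfl⟩ := Finset.mem_image.1 hz
      obtain ⟨l, -, rfl⟩ := Finset.mem_image.1 hw
      exact Finset.orderEmbOfFin_mem Y1 hc1 l
    have hvf : (Finset.univ.filter fun i : Fin K => (i : ℕ) ∈ v) = α.image τ := by
      ext z
      rw [Finset.mem_filter, hv, Finset.mem_image]
      constructor
      · rintro ⟨-, w, hw, hz⟩
        rwa [← Fin.ext hz]
      · intro hz
        exact ⟨Finset.mem_univ _, z, hz, rfl⟩
    have hfin := hcol v n hn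
    rw [hvf] at hfin
    have hcv : col v = (![n1, n2, n3] : Fin 3 → Fin (N + 1)) i := by
      fin_cases i
      · exact hn1 v hvY (by rw [hvc, hα])
      · exact hn2 v (hvY.trans hY1) (by rw [hvc, hα])
      · exact hn3 v ((hvY.trans hY1).trans hY2) (by rw [hvc, hα])
    show f (α.image τ) ((![n1, n2, n3] : Fin 3 → Fin (N + 1)) i : ℕ) ω ≤ _
    rw [← hcv]
    exact hfin
  choose A hA using key
  exact ⟨A, hA⟩

end Pool.RF
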