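import Pool.Agent.H60.RF.Stmts

/-! # Row RMT of the board `rf`: Ramsey's theorem for `t`-subsets -/

set_option autoImplicit false

namespace Pool.RF

theorem rmt : RMTStmt := by
  intro t
  induction t with
  | zero =>
    intro R c
    refine ⟨R, fun X hX col => ?_⟩
    obtain ⟨Y, hY, hc⟩ := Finset.exists_subset_card_eq hX
    exact ⟨Y, hY, hc, col ∅, fun s _ hs => by rw [Finset.card_eq_zero.1 hs]⟩
  | succ t ih =>
    intro R c
    have E : ∀ j : ℕ, ∃ K : ℕ, ∀ X : Finset ℕ, K ≤ X.card → ∀ col : Finset ℕ → Fin c,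
        ∃ Y ⊆ X, Y.card = j ∧ ∃ n : ℕ → Fin c, ∀ y ∈ Y, ∀ s ⊆ Y, s.card = t →
          (∀ z ∈ s, y < z) → col (insert y s) = n y := by
      intro j
      induction j with
      | zero =>
        exact ⟨0, fun X _ col => ⟨∅, by simp, rfl, fun _ => col ∅, by simp⟩⟩
      | succ j ihj =>
        obtain ⟨K1, h1⟩ := ihj
        obtain ⟨K2, h2⟩ := ih K1 c
        refine ⟨K2 + 1, fun X hX col => ?_⟩
        have hne : X.Nonempty := Finset.card_pos.1 (by omega)
        obtain ⟨x, hx⟩ : ∃ x, x = X.min' hne := ⟨_, rfl⟩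
        have hxX : x ∈ X := hx ▸ X.min'_mem hne
        obtain ⟨Y', hY', hcY', n0, hn0⟩ := h2 (X.erase x)
          (by rw [Finset.card_erase_of_mem hxX]; omega) (fun s => col (insert x s))
        obtain ⟨Y'', hY'', hcY'', n'', hn''⟩ := h1 Y' hcY'.ge col
        have hlt : ∀ y ∈ Y'', x < y := fun y hy => by
          have hy2 := hY' (hY'' hy)
          have hy3 := Finset.mem_of_mem_erase hy2
          exact lt_of_le_of_ne (hx ▸ X.min'_le y hy3) (Finset.ne_of_mem_erase hy2).symm
        have hxn : x ∉ Y'' := fun h => lt_irrefl _ (hlt x h)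
        refine ⟨insert x Y'', ?_, ?_, Function.update n'' x n0, ?_⟩
        · intro y hy
          rcases Finset.mem_insert.1 hy with rfl | hy
          · exact hxX
          · exact Finset.mem_of_mem_erase (hY' (hY'' hy))
        · rw [Finset.card_insert_of_notMem hxn, hcY'']
        · intro y hy s hs hcs hz
          have hsx : x ∉ s → s ⊆ Y'' := fun hx z hz' => by
            rcases Finset.mem_insert.1 (hs hz') with rfl | h
            · exact absurd hz' hx
            · exact h
          rcases Finset.mem_insert.1 hy with rfl | hy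
          · have hxs : y ∉ s := fun h => lt_irrefl _ (hz y h)
            rw [Function.update_self]
            exact hn0 s ((hsx hxs).trans hY'') hcs
          · have hxs : x ∉ s := fun h => lt_asymm (hz x h) (hlt y hy)
            rw [Function.update_of_ne (hlt y hy).ne']
            exact hn'' y hy s (hsx hxs) hcs hz
    obtain ⟨K, hK⟩ := E (c * R)
    refine ⟨K, fun X hX col => ?_⟩
    obtain ⟨Y, hY, hcY, n, hn⟩ := hK X hX col
    have hc : 0 < c := (col ∅).pos
    obtain ⟨m, -, hm⟩ := Finset.exists_le_card_fiber_of_mul_le_card_of_maps_to (s := Y)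
      (t := (Finset.univ : Finset (Fin c))) (f := n) (n := R) (fun _ _ => Finset.mem_univ _)
      ⟨⟨0, hc⟩, Finset.mem_univ _⟩ (by simp [hcY])
    obtain ⟨Y0, hY0, hcY0⟩ := Finset.exists_subset_card_eq hm
    refine ⟨Y0, (hY0.trans (Finset.filter_subset _ _)).trans hY, hcY0, m, fun s hs hcs => ?_⟩
    have hne : s.Nonempty := Finset.card_pos.1 (by omega)
    obtain ⟨y, hy⟩ : ∃ y, y = s.min' hne := ⟨_, rfl⟩
    have hys : y ∈ s := hy ▸ s.min'_mem hne
    have hyY := Finset.mem_filter.1 (hY0 (hs hys))
    have e := hn y hyY.1 (s.erase y) (fun z hz => (Finset.mem_filter.1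
      (hY0 (hs (Finset.mem_of_mem_erase hz)))).1) (by rw [Finset.card_erase_of_mem hys]; omega)
      (fun z hz => lt_of_le_of_ne (hy ▸ s.min'_le z (Finset.mem_of_mem_erase hz))
        (Finset.ne_of_mem_erase hz).symm)
    rw [Finset.insert_erase hys, hyY.2] at e
    exact e

end Pool.RF
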